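import Mathlib
import Pool.Agent.H759R2.Kad.Props6

open scoped ComplexOrder InnerProductSpace ComplexConjugate
open Finset

noncomputable section

namespace H759R2.Kad

universe u v

theorem prove6_faith (h : W_supp.{u}) : W_faith.{u} := by
  intro A _ hA φ hφ z hz hφz
  let T : Type u := {n : A // Prj n ∧ z * n = n ∧ φ n = 0}
  let r : T → T → Prop := fun n m => (m : A) * n = n
  have hzorn : ∃ m : T, ∀ a : T, r m a → r a m := by
    apply exists_maximal_of_chains_bounded
    · intro c hc
      by_cases hne : c.Nonempty
      · obtain ⟨P, hP, h1, h2, h3⟩ := h A hA ((fun x : T => (x : A)) '' c) (hne.image _)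
          (by rintro _ ⟨x, _, rfl⟩; exact x.2.1)
          (by
            rintro _ ⟨x, hx, rfl⟩ _ ⟨y, hy, rfl⟩
            by_cases he : x = y
            · subst he; left; exact x.2.1.2
            · exact hc hx hy he)
        have hzP : z * P = P := by
          have := h2 (1 - z) 1 (by
            rintro _ ⟨x, _, rfl⟩
            rw [mul_one, sub_mul, one_mul, x.2.2.1, sub_self])
          rw [mul_one, sub_mul, one_mul, sub_eq_zero] at this
          exact this.symm
        have hpos : 0 ≤ φ P := by
          have := hφ.pos P
          rwa [hP.1, hP.2] at this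
        have hre : (φ P).re ≤ 0 := by
          apply le_of_forall_pos_le_add
          intro ε hε
          obtain ⟨_, ⟨x, hx, rfl⟩, hp⟩ := h3 φ hφ 1 ε hε
          simp only [one_mul, star_one, mul_one, x.2.2.2, Complex.zero_re] at hp
          linarith
        have hφP : φ P = 0 := by
          rw [Complex.le_def] at hpos
          apply Complex.ext
          · exact le_antisymm hre hpos.1
          · exact hpos.2.symm
        exact ⟨⟨P, hP, hzP, hφP⟩, fun a ha => h1 _ ⟨a, ha, rfl⟩⟩
      · refine ⟨⟨0, ⟨by simp, by simp⟩, by simp, by simp⟩, ?_⟩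
        intro a ha
        exact absurd ⟨a, ha⟩ hne
    · intro a b c hab hbc
      change (c : A) * a = a
      have h1 : (b : A) * a = a := hab
      have h2 : (c : A) * b = b := hbc
      rw [← h1, ← mul_assoc, h2]
  obtain ⟨⟨n, hn, hzn, hφn⟩, hmax⟩ := hzorn
  have hnz : n * z = n := by
    have := congrArg star hzn
    rwa [star_mul, hn.1, hz.1] at this
  refine ⟨z - n, ⟨by rw [star_sub, hz.1, hn.1], ?_⟩, ?_, ?_, ?_⟩
  · rw [sub_mul, mul_sub, mul_sub, hz.2, hzn, hnz, hn.2]
    abel
  · rw [mul_sub, hz.2, hzn]
  · intro hs
    rw [sub_eq_zero] at hs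
    rw [hs] at hφz
    exact hφz hφn
  · intro e he hse hφe
    have hne : n * e = 0 := by
      rw [← hse, ← mul_assoc, mul_sub, hnz, hn.2, sub_self, zero_mul]
    have hen : e * n = 0 := by
      have := congrArg star hne
      rwa [star_mul, hn.1, he.1, star_zero] at this
    have hze : z * e = e := by
      rw [← hse, ← mul_assoc, mul_sub, hz.2, hzn]
    have key := hmax ⟨n + e, ⟨by rw [star_add, hn.1, he.1], by
      rw [add_mul, mul_add, mul_add, hn.2, he.2, hne, hen]; abel⟩, by
      rw [mul_add, hzn, hze], by rw [map_add, hφn, hφe, add_zero]⟩ (by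
        change (n + e) * n = n
        rw [add_mul, hn.2, hen, add_zero])
    have key' : n * (n + e) = n + e := key
    rw [mul_add, hn.2, hne, add_zero] at key'
    exact (left_eq_add.1 key')

end H759R2.Kad
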