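import Mathlib
import Pool.Agent.H759R2.Kad.Props7

open scoped ComplexOrder InnerProductSpace ComplexConjugate
open Finset

noncomputable section

namespace H759R2.Kad

universe u v

namespace Hb

section
variable {F : Type u} [CStarAlgebra F]

/-- an element close to `1` is bounded below -/
theorem pos_of_near (c : F) (hc : star c = c) :
    Pos (c - ((1 - ‖c - 1‖ : ℝ) : ℂ) • 1) := by
  letI := CStarAlgebra.spectralOrder F
  letI := CStarAlgebra.spectralOrderedRing F
  have h1 : IsSelfAdjoint (1 - c) := by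
    rw [IsSelfAdjoint, star_sub, star_one, hc]
  have h2 := h1.le_algebraMap_norm_self
  have h3 : 0 ≤ c - ((1 - ‖c - 1‖ : ℝ) : ℂ) • (1 : F) := by
    have h4 : algebraMap ℝ F ‖1 - c‖ = ((‖c - 1‖ : ℝ) : ℂ) • (1 : F) := by
      rw [norm_sub_rev, Algebra.algebraMap_eq_smul_one]
      simp
    rw [h4] at h2
    have h5 : c - ((1 - ‖c - 1‖ : ℝ) : ℂ) • (1 : F) = ((‖c - 1‖ : ℝ) : ℂ) • (1 : F) - (1 - c) := by
      push_cast
      rw [sub_smul, one_smul]
      abel
    rw [h5, sub_nonneg]
    exact h2
  rw [CStarAlgebra.nonneg_iff_eq_star_mul_self] at h3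
  exact h3

/-- positive elements are in the closed cone of the unit ball at `1` -/
theorem ball_of_pos (b : F) {s ε : ℝ} (hs : 0 < s) (hε : 0 < ε)
    (hb : s * (‖star b * b‖ + ε) ≤ 1) :
    (s : ℝ) • (star b * b + ε • (1 : F)) ∈ Metric.ball (1 : F) 1 := by
  letI := CStarAlgebra.spectralOrder F
  letI := CStarAlgebra.spectralOrderedRing F
  rw [mem_ball_iff_norm, norm_sub_rev]
  have h0 : (0 : F) ≤ star b * b := star_mul_self_nonneg b
  have h1 : star b * b ≤ algebraMap ℝ F ‖star b * b‖ :=
    (IsSelfAdjoint.star_mul_self b).le_algebraMap_norm_self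
  rw [Algebra.algebraMap_eq_smul_one] at h1
  have key : (1 : F) - s • (star b * b + ε • (1 : F)) =
      (1 - s * ε) • (1 : F) - s • (star b * b) := by
    rw [smul_add, smul_smul, sub_smul, one_smul]; abel
  have hle : (1 : F) - s • (star b * b + ε • (1 : F)) ≤ algebraMap ℝ F (1 - s * ε) := by
    rw [key, Algebra.algebraMap_eq_smul_one, sub_le_self_iff]
    exact smul_nonneg hs.le h0
  have hge : 0 ≤ (1 : F) - s • (star b * b + ε • (1 : F)) := by
    rw [key, sub_nonneg]
    calc s • (star b * b) ≤ s • (‖star b * b‖ • (1 : F)) := smul_le_smul_of_nonneg_left h1 hs.le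
      _ = (s * ‖star b * b‖) • (1 : F) := by rw [smul_smul]
      _ ≤ (1 - s * ε) • (1 : F) := by
          apply smul_le_smul_of_nonneg_right _ zero_le_one
          nlinarith
  have hnn : 0 ≤ 1 - s * ε := by
    have := norm_nonneg (star b * b)
    nlinarith
  have := (CStarAlgebra.norm_le_iff_le_algebraMap _ hnn hge).2 hle
  have h6 : 0 < s * ε := by positivity
  linarith

/-- the commutator part -/
def D (x : F) : F := star x * x - x * star x

theorem D_star (x : F) : D (star x) = - D x := by simp [D]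

theorem D_smul (c : ℂ) (x : F) : D (c • x) = (c * conj c) • D x := by
  unfold D
  rw [star_smul, smul_mul_smul_comm, smul_mul_smul_comm, smul_sub]
  simp only [RCLike.star_def]
  rw [mul_comm (conj c) c]

/-- the set of the sums -/
def CS (F : Type u) [CStarAlgebra F] : Set F := {c | ∃ (n : ℕ) (x : Fin n → F), c = ∑ i, D (x i)}

theorem CS_zero : (0 : F) ∈ CS F := ⟨0, Fin.elim0, by simp⟩

theorem CS_one (x : F) : D x ∈ CS F := ⟨1, fun _ => x, by simp⟩

theorem CS_add {a b : F} (ha : a ∈ CS F) (hb : b ∈ CS F) : a + b ∈ CS F := by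
  obtain ⟨n, x, rfl⟩ := ha
  obtain ⟨m, y, rfl⟩ := hb
  refine ⟨n + m, Fin.append x y, ?_⟩
  rw [Fin.sum_univ_add]
  simp

theorem CS_smul {a : F} {r : ℝ} (hr : 0 ≤ r) (ha : a ∈ CS F) : r • a ∈ CS F := by
  obtain ⟨n, x, rfl⟩ := ha
  refine ⟨n, fun i => ((Real.sqrt r : ℝ) : ℂ) • x i, ?_⟩
  rw [Finset.smul_sum]
  apply Finset.sum_congr rfl
  intro i _
  rw [D_smul, Complex.conj_ofReal, ← Complex.ofReal_mul, Real.mul_self_sqrt hr]
  simp

theorem CS_conv : Convex ℝ (CS F) := by
  intro a ha b hb s t hs ht _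
  exact CS_add (CS_smul hs ha) (CS_smul ht hb)

theorem CS_sa {a : F} (ha : a ∈ CS F) : star a = a := by
  obtain ⟨n, x, rfl⟩ := ha
  rw [star_sum]
  apply Finset.sum_congr rfl
  intro i _
  simp [D]

/-- the complex functional of a real one -/
def ext (g : F →L[ℝ] ℝ) : F →ₗ[ℂ] ℂ where
  toFun := fun a => (((g a + g (star a)) / 2 : ℝ) : ℂ) -
    Complex.I * (((g (Complex.I • a) + g (star (Complex.I • a))) / 2 : ℝ) : ℂ)
  map_add' := by
    intro a b
    simp only [star_add, smul_add, map_add]
    push_cast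
    ring
  map_smul' := by
    intro c a
    have h1 : c • a = c.re • a + c.im • (Complex.I • a) := by
      conv_lhs => rw [← Complex.re_add_im c, add_smul, mul_smul]
      simp
    have h2 : Complex.I • (c • a) = c.re • (Complex.I • a) - c.im • a := by
      conv_lhs => rw [← Complex.re_add_im c, smul_smul, mul_add, add_smul]
      rw [show Complex.I * ((c.im : ℂ) * Complex.I) = -(c.im : ℂ) by
        rw [mul_comm (c.im : ℂ), ← mul_assoc, Complex.I_mul_I]; ring, neg_smul, mul_comm, mul_smul]
      simp [sub_eq_add_neg]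
    have h3 : star (c • a) = c.re • star a + c.im • star (Complex.I • a) := by
      rw [h1, star_add, star_smul, star_smul c.im]
      simp
    have h4 : star (Complex.I • (c • a)) = c.re • star (Complex.I • a) - c.im • star a := by
      rw [h2, star_sub, star_smul, star_smul c.im]
      simp
    rw [h4, h3, h2, h1]
    simp only [map_add, map_sub, map_smul, smul_eq_mul, RingHom.id_apply]
    apply Complex.ext
    · simp
      ring
    · simp
      ring

theorem ext_sa (g : F →L[ℝ] ℝ) {a : F} (ha : star a = a) : ext g a = (g a : ℂ) := by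
  have h1 : star (Complex.I • a) = - (Complex.I • a) := by
    rw [star_smul, ha]; simp
  change (((g a + g (star a)) / 2 : ℝ) : ℂ) -
    Complex.I * (((g (Complex.I • a) + g (star (Complex.I • a))) / 2 : ℝ) : ℂ) = _
  rw [h1, ha, map_neg]
  simp

end

end Hb

open Hb in
theorem prove7_hb : Q_hb.{u} := by
  intro F _ hno hne
  by_contra hcon
  apply hno
  have hdisj : Disjoint (Metric.ball (1 : F) 1) (CS F) := by
    rw [Set.disjoint_left]
    intro c hc hcs
    apply hcon
    have hsa := CS_sa hcs
    obtain ⟨n, x, rfl⟩ := hcs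
    refine ⟨n, x, 1 - ‖(∑ i, D (x i)) - 1‖, ?_, pos_of_near _ hsa⟩
    rw [mem_ball_iff_norm] at hc
    linarith
  obtain ⟨f, u, hf1, hf2⟩ := geometric_hahn_banach_open (convex_ball (1 : F) 1)
    Metric.isOpen_ball CS_conv hdisj
  have hu : u ≤ 0 := by
    have := hf2 0 CS_zero
    rwa [map_zero] at this
  -- `f ≥ 0` on `CS`
  have hf3 : ∀ c ∈ CS F, 0 ≤ f c := by
    intro c hc
    by_contra h
    push Not at h
    have h1 := hf2 (((u - 1) / f c) • c) (CS_smul (div_nonneg_of_nonpos (by linarith) h.le) hc)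
    rw [map_smul, smul_eq_mul, div_mul_cancel₀ _ h.ne] at h1
    linarith
  have hf4 : ∀ x : F, f (D x) = 0 := by
    intro x
    have h1 := hf3 _ (CS_one x)
    have h2 := hf3 _ (CS_one (star x))
    rw [D_star, map_neg] at h2
    linarith
  have hf5 : ∀ a ∈ Metric.ball (1 : F) 1, f a < 0 := fun a ha => (hf1 a ha).trans_le hu
  have hf6 : f 1 < 0 := hf5 1 (Metric.mem_ball_self one_pos)
  have hf7 : ∀ b : F, f (star b * b) ≤ 0 := by
    intro b
    apply le_of_forall_pos_le_add
    intro ε' hε'
    obtain ⟨ε, hε, hεe⟩ : ∃ ε : ℝ, 0 < ε ∧ ε * (- f 1) = ε' :=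
      ⟨ε' / (- f 1), div_pos hε' (by linarith), div_mul_cancel₀ _ (by linarith)⟩
    have hM : 0 < ‖star b * b‖ + ε := by positivity
    have h1 := hf5 _ (ball_of_pos b (s := (‖star b * b‖ + ε)⁻¹) (inv_pos.2 hM) hε
      (by rw [inv_mul_cancel₀ hM.ne']))
    rw [map_smul, smul_eq_mul, map_add, map_smul, smul_eq_mul] at h1
    have h2 : f (star b * b) + ε * f 1 < 0 := by
      by_contra h3
      push Not at h3
      have := mul_nonneg (inv_pos.2 hM).le h3
      linarith
    linarith
  -- the trace
  let τ : F →ₗ[ℂ] ℂ := (((f 1 : ℝ) : ℂ)⁻¹) • ext f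
  have hτsa : ∀ a : F, star a = a → τ a = ((f a / f 1 : ℝ) : ℂ) := by
    intro a ha
    change (((f 1 : ℝ) : ℂ)⁻¹) • ext f a = _
    rw [ext_sa f ha, smul_eq_mul]
    push_cast
    rw [div_eq_mul_inv, mul_comm]
  have hτD : ∀ x : F, τ (star x * x) = τ (x * star x) := by
    intro x
    rw [hτsa _ (by simp), hτsa _ (by simp)]
    have := hf4 x
    rw [D, map_sub, sub_eq_zero] at this
    rw [this]
  refine ⟨τ, ?_, ?_, ?_⟩
  · rw [hτsa _ (star_one F), div_self hf6.ne]
    simp
  · intro a
    rw [hτsa _ (by simp)]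
    have : 0 ≤ f (star a * a) / f 1 := div_nonneg_of_nonpos (hf7 a) hf6.le
    exact_mod_cast this
  · intro a b
    have key : ∀ u v : F, τ (star u * v) = τ (v * star u) := by
      intro u v
      have e1 := hτD (u + v)
      have e2 := hτD (u + Complex.I • v)
      have e3 := hτD u
      have e4 := hτD v
      have e5 := hτD (Complex.I • v)
      simp only [star_add, star_smul, add_mul, mul_add, map_add, smul_mul_assoc, mul_smul_comm,
        map_smul, smul_eq_mul, RCLike.star_def, Complex.conj_I] at e1 e2 e5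
      have f1 : τ (star u * v) + τ (star v * u) = τ (v * star u) + τ (u * star v) := by
        linear_combination e1 - e3 - e4
      have f2 : Complex.I * (τ (star u * v) - τ (star v * u)) =
          Complex.I * (τ (v * star u) - τ (u * star v)) := by
        linear_combination e2 - e3 - e5
      have f3 := mul_left_cancel₀ Complex.I_ne_zero f2
      linear_combination (f1 + f3) / 2
    have := key (star a) b
    rwa [star_star] at this

end H759R2.Kad
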